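import Pool.Agent.Q73.GP.Stm3
import Pool.Agent.Q73.GP.ABS
import Pool.Agent.Q73.GP.ALG
import Pool.Agent.Q73.GP.AVG
import Pool.Agent.Q73.GP.AVH
import Pool.Agent.Q73.GP.AVL
import Pool.Agent.Q73.GP.BB
import Pool.Agent.Q73.GP.CDEP
import Pool.Agent.Q73.GP.CMP
import Pool.Agent.Q73.GP.CMP1
import Pool.Agent.Q73.GP.COMP
import Pool.Agent.Q73.GP.CONT
import Pool.Agent.Q73.GP.DBD
import Pool.Agent.Q73.GP.DGEN
import Pool.Agent.Q73.GP.DSP
import Pool.Agent.Q73.GP.ELL
import Pool.Agent.Q73.GP.ELS
import Pool.Agent.Q73.GP.ERIS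
import Pool.Agent.Q73.GP.FAC
import Pool.Agent.Q73.GP.FIN
import Pool.Agent.Q73.GP.FRED
import Pool.Agent.Q73.GP.FUN
import Pool.Agent.Q73.GP.GERM
import Pool.Agent.Q73.GP.L1
import Pool.Agent.Q73.GP.LB
import Pool.Agent.Q73.GP.LO
import Pool.Agent.Q73.GP.LOW
import Pool.Agent.Q73.GP.MM
import Pool.Agent.Q73.GP.MRG
import Pool.Agent.Q73.GP.NET
import Pool.Agent.Q73.GP.NODE
import Pool.Agent.Q73.GP.NU1
import Pool.Agent.Q73.GP.PFP
import Pool.Agent.Q73.GP.RAV
import Pool.Agent.Q73.GP.REC
import Pool.Agent.Q73.GP.RISB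
import Pool.Agent.Q73.GP.SEL
import Pool.Agent.Q73.GP.SPL
import Pool.Agent.Q73.GP.STAR
import Pool.Agent.Q73.GP.STEP
import Pool.Agent.Q73.GP.SUPP
import Pool.Agent.Q73.GP.TA
import Pool.Agent.Q73.GP.TAIL
import Pool.Agent.Q73.GP.WN

set_option autoImplicit false

/-!
MP_1001d8_an, Q1 (full answer, YES, real scalars): there is a Banach space with the primary
factorisation property but without the uniform primary factorisation property.

The space is of Gowers-Maurey type, for the semigroup generated by the spreads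
`e_{2 s + i} → e_{2 t + i}` (`s = 2^k2 m + r2`, `t = 2^k1 m + r1`, `i = 0, 1`) and by the nilpotent
operator `R`: `e_{2 n} → e_{2 n + 1}`, `e_{2 n + 1} → 0`, which commutes with them. Every operator is,
on rapidly increasing sequences, near to a linear combination of spreads; a linear combination of
spreads can be compressed to `μ + μ' R`, which is invertible if `μ ≠ 0`; so the identity factors
through `T` or through `1 - T`. But for `T = 1/2 + s R` (and for `1 - T = 1/2 - s R`) every
factorisation `U T V = 1` needs `‖U‖ ‖V‖ ≥ (|s| - 1) / 8`.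
-/

namespace Pool.Agent.Results.MP_1001d8_an.FactorisationNotUniform

open Pool.Agent.Q73.GP

theorem main : S_PFP ∧ S_NU1 := by
  have spl := t_SPL
  have st := t_STEP spl
  have hrec := t_REC st
  have nd := t_NODE
  have avl := t_AVL st hrec nd
  have avh := t_AVH nd
  have avg := t_AVG avl avh
  have dg := t_DGEN
  have ds := t_DSP dg
  have co := t_COMP
  have dbd := t_DBD co hrec dg ds
  have rav := t_RAV
  have l1 := t_L1 spl
  have els := t_ELS
  have eris := t_ERIS els
  have low := t_LOW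
  have tail := t_TAIL low
  have wn := t_WN avg
  have lo := t_LO els wn
  have sp := t_SUPP
  have sel := t_SEL lo tail
  have cd := t_CDEP els avg sp
  have con := t_CON dbd cd
  have fi := t_FIN
  have fn := t_FUN t_ABS fi
  have star := t_STAR sp sel fn con
  have net := t_NET fi
  have lb := t_LB low sp
  have mrg := t_MRG avg rav sel lb
  have ta := t_TA star net t_MM mrg
  have germ := t_GERM low eris avg rav
  have ell := t_ELL low
  have risb := t_RISB els l1 ell
  have bb := t_BB tail risb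
  exact ⟨t_PFP ta germ (t_CMP t_CMP1) (t_FAC bb t_FRED), t_NU1 ta (t_ALG co) germ eris⟩

/-- the nilpotent operator, as a real linear operator -/
noncomputable def R : XX →L[ℝ] XX := (Sx RR).restrictScalars ℝ

theorem R_apply (w : XX) : R w = Sx RR w := rfl

theorem result :
    ∃ (E : Type) (_ : NormedAddCommGroup E) (_ : NormedSpace ℝ E) (_ : CompleteSpace E),
      (∀ T : E →L[ℝ] E, ∃ U V : E →L[ℝ] E,
        U.comp (T.comp V) = ContinuousLinearMap.id ℝ E ∨
          U.comp ((ContinuousLinearMap.id ℝ E - T).comp V) = ContinuousLinearMap.id ℝ E) ∧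
      ¬ ∃ C : ℝ, 1 ≤ C ∧ ∀ T : E →L[ℝ] E, ∃ U V : E →L[ℝ] E, ‖U‖ * ‖V‖ ≤ C ∧
        (U.comp (T.comp V) = ContinuousLinearMap.id ℝ E ∨
          U.comp ((ContinuousLinearMap.id ℝ E - T).comp V) = ContinuousLinearMap.id ℝ E) := by
  obtain ⟨pfp, nu⟩ := main
  refine ⟨XX, inferInstance, inferInstance, inferInstance, ?_, ?_⟩
  · intro T
    obtain ⟨A, B, h | h⟩ := pfp T
    · exact ⟨A, B, Or.inl (ContinuousLinearMap.ext fun w => h w)⟩
    · exact ⟨A, B, Or.inr (ContinuousLinearMap.ext fun w => h w)⟩
  · rintro ⟨C, hC, h⟩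
    set s : ℝ := 8 * C + 2 with hs
    obtain ⟨U, V, hUV, h1 | h1⟩ := h ((1 / 2 : ℝ) • ContinuousLinearMap.id ℝ XX + s • R)
    · have h2 := nu s U V fun w => by
        have := congrArg (fun L : XX →L[ℝ] XX => L w) h1
        exact this
      rw [abs_of_pos (by rw [hs]; linarith)] at h2
      linarith
    · have h2 := nu (-s) U V fun w => by
        have h3 := congrArg (fun L : XX →L[ℝ] XX => L w) h1
        have h4 : (1 / 2 : ℝ) • V w + (-s) • Sx RR (V w) =
            V w - ((1 / 2 : ℝ) • V w + s • Sx RR (V w)) := by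
          have h5 : V w - (1 / 2 : ℝ) • V w = (1 / 2 : ℝ) • V w := by
            rw [sub_eq_iff_eq_add, ← add_smul]
            norm_num
          rw [neg_smul, ← sub_sub, h5]
          exact (sub_eq_add_neg _ _).symm
        rw [h4]
        exact h3
      rw [abs_neg, abs_of_pos (by rw [hs]; linarith)] at h2
      linarith

end Pool.Agent.Results.MP_1001d8_an.FactorisationNotUniform
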